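import Pool.Agent.helper21.WB.Basic

/-! Module WB-B4b: volume of hyperbolic balls in dimension four, null sets, fixed point sets. -/

set_option autoImplicit false
open Matrix MeasureTheory

namespace Pool.Agent.helper21.WB

instance : SFinite μ := by unfold μ; infer_instance

namespace B4b

theorem continuous_sq : Continuous (fun y : X => Real.sqrt (1 + ∑ i, y i ^ 2)) := by fun_prop

theorem sqrt_pos' (y : X) : 0 < Real.sqrt (1 + ∑ i, y i ^ 2) := by
  have := lift_o_pos y
  rw [lift_inr] at this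
  linarith

theorem continuous_dens : Continuous (fun y : X => 1 / Real.sqrt (1 + ∑ i, y i ^ 2)) :=
  continuous_const.div continuous_sq (fun y => (sqrt_pos' y).ne')

theorem measurable_dens :
    Measurable (fun y : X => ENNReal.ofReal (1 / Real.sqrt (1 + ∑ i, y i ^ 2))) :=
  continuous_dens.measurable.ennreal_ofReal

theorem dens_le_one (y : X) : 1 / Real.sqrt (1 + ∑ i, y i ^ 2) ≤ 1 := by
  have := lift_o_pos y
  rw [lift_inr] at this
  rw [div_le_one (by linarith)]
  exact this

theorem μ_le : μ ≤ (volume : Measure X) := by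
  unfold μ
  refine Measure.le_iff.2 (fun s hs => ?_)
  rw [withDensity_apply _ hs]
  calc ∫⁻ y in s, ENNReal.ofReal (1 / Real.sqrt (1 + ∑ i, y i ^ 2)) ∂volume
      ≤ ∫⁻ _ in s, 1 ∂volume := by
        refine lintegral_mono (fun y => ?_)
        exact ENNReal.ofReal_le_one.2 (dens_le_one y)
    _ = volume s := by simp

theorem ch_zero' (y : X) : ch 0 y = lift y o := by
  unfold ch
  rw [bl_apply]
  simp [lift_zero, lift_inl]

/-- the ball around the origin in coordinates -/
theorem hball_zero {r : ℝ} (hr : 0 ≤ r) :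
    {y : X | hd 0 y ≤ r} = {y : X | Real.sqrt (∑ i, y i ^ 2) ≤ Real.sinh r} := by
  ext y
  have hs : 0 ≤ ∑ i, y i ^ 2 := Finset.sum_nonneg (fun i _ => sq_nonneg _)
  have h1 : hd 0 y ≤ r ↔ ch 0 y ≤ Real.cosh r := by
    constructor
    · intro h
      rw [← cosh_hd]
      rw [Real.cosh_le_cosh, abs_of_nonneg (hd_nonneg _ _), abs_of_nonneg hr]
      exact h
    · intro h
      rw [← cosh_hd, Real.cosh_le_cosh, abs_of_nonneg (hd_nonneg _ _), abs_of_nonneg hr] at h
      exact h
  show hd 0 y ≤ r ↔ _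
  rw [h1, ch_zero', lift_inr]
  have h2 : Real.cosh r = Real.sqrt (1 + Real.sinh r ^ 2) := by
    rw [← Real.cosh_sq', Real.sqrt_sq (Real.cosh_pos r).le]
  have h3 : 0 ≤ Real.sinh r := Real.sinh_nonneg_iff.2 hr
  rw [h2, Real.sqrt_le_sqrt_iff (by positivity), add_le_add_iff_left]
  show _ ↔ Real.sqrt (∑ i, y i ^ 2) ≤ Real.sinh r
  rw [Real.sqrt_le_left h3]

theorem integral_part (s : ℝ) :
    ∫ y in (0:ℝ)..s, y ^ 3 / Real.sqrt (1 + y ^ 2)
      = Real.sqrt (1 + s ^ 2) ^ 3 / 3 - Real.sqrt (1 + s ^ 2) + 2 / 3 := by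
  have hpos : ∀ y : ℝ, 0 < 1 + y ^ 2 := fun y => by positivity
  have hd : ∀ y : ℝ, HasDerivAt (fun y => Real.sqrt (1 + y ^ 2) ^ 3 / 3 - Real.sqrt (1 + y ^ 2))
      (y ^ 3 / Real.sqrt (1 + y ^ 2)) y := by
    intro y
    have e1 : HasDerivAt (fun y : ℝ => 1 + y ^ 2) (2 * y) y := by
      have := (hasDerivAt_pow 2 y).const_add 1
      simpa using this
    have e2 := e1.sqrt (hpos y).ne'
    have e3 := ((e2.pow 3).div_const 3).sub e2
    refine e3.congr_deriv ?_
    have hq : 0 < Real.sqrt (1 + y ^ 2) := Real.sqrt_pos.2 (hpos y)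
    have hq2 : Real.sqrt (1 + y ^ 2) ^ 2 = 1 + y ^ 2 := Real.sq_sqrt (hpos y).le
    set q := Real.sqrt (1 + y ^ 2)
    field_simp
    have : (3:ℕ) - 1 = 2 := rfl
    simp only [this]
    push_cast
    rw [hq2]
    ring
  have hc : Continuous (fun y : ℝ => y ^ 3 / Real.sqrt (1 + y ^ 2)) := by
    refine Continuous.div (by fun_prop) (by fun_prop) (fun y => ?_)
    exact (Real.sqrt_pos.2 (hpos y)).ne'
  rw [intervalIntegral.integral_eq_sub_of_hasDerivAt (fun y _ => hd y)
    (hc.intervalIntegrable _ _)]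
  simp
  ring

end B4b
open B4b

theorem isFiniteMeasureOnCompacts_μ : IsFiniteMeasureOnCompacts μ := by
  refine ⟨fun K hK => ?_⟩
  exact lt_of_le_of_lt (μ_le K) hK.measure_lt_top

theorem μ_null_iff (s : Set X) : μ s = 0 ↔ (volume : Measure X) s = 0 := by
  constructor
  · intro h
    have := withDensity_absolutelyContinuous' (μ := (volume : Measure X))
      (f := fun y : X => ENNReal.ofReal (1 / Real.sqrt (1 + ∑ i, y i ^ 2)))
      measurable_dens.aemeasurable (Filter.Eventually.of_forall (fun y => by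
        have : 0 < 1 / Real.sqrt (1 + ∑ i, y i ^ 2) := one_div_pos.2 (sqrt_pos' y)
        exact (ENNReal.ofReal_pos.2 this).ne'))
    exact this h
  · intro h
    exact le_antisymm ((μ_le s).trans h.le) zero_le

/-- volume of balls -/
noncomputable def vb (r : ℝ) : ℝ := (μ {y | hd 0 y ≤ r}).toReal

namespace B4b

theorem measurableSet_ball0 (r : ℝ) : MeasurableSet {y : X | Real.sqrt (∑ i, y i ^ 2) ≤ r} := by
  have : Continuous (fun y : X => Real.sqrt (∑ i, y i ^ 2)) := by fun_prop
  exact measurableSet_le this.measurable measurable_const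

theorem vb_eq {r : ℝ} (hr : 0 ≤ r) :
    vb r = 2 * Real.pi ^ 2 * (Real.cosh r ^ 3 / 3 - Real.cosh r + 2 / 3) := by
  have hs : 0 ≤ Real.sinh r := Real.sinh_nonneg_iff.2 hr
  have hcs : Real.sqrt (1 + Real.sinh r ^ 2) = Real.cosh r := by
    rw [← Real.cosh_sq', Real.sqrt_sq (Real.cosh_pos r).le]
  unfold vb
  rw [hball_zero hr]
  -- as a Bochner integral
  have h1 : (μ {y : X | Real.sqrt (∑ i, y i ^ 2) ≤ Real.sinh r}).toReal
      = ∫ y : X, (Set.Iic (Real.sinh r)).indicator (fun t => 1 / Real.sqrt (1 + t ^ 2))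
          (Real.sqrt (∑ i, y i ^ 2)) := by
    unfold μ
    rw [withDensity_apply _ (measurableSet_ball0 _)]
    rw [← integral_toReal (measurable_dens.aemeasurable.restrict)
      (Filter.Eventually.of_forall (fun y => ENNReal.ofReal_lt_top))]
    rw [← integral_indicator (measurableSet_ball0 _)]
    refine integral_congr_ae (Filter.Eventually.of_forall (fun y => ?_))
    simp only [Set.indicator, Set.mem_Iic, Set.mem_ofPred_eq]
    split_ifs with h
    · rw [ENNReal.toReal_ofReal (one_div_pos.2 (sqrt_pos' y)).le,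
        Real.sq_sqrt (Finset.sum_nonneg (fun i _ => sq_nonneg _))]
    · rfl
  rw [h1]
  -- pass to Euclidean space
  have h2 : ∫ y : X, (Set.Iic (Real.sinh r)).indicator (fun t => 1 / Real.sqrt (1 + t ^ 2))
          (Real.sqrt (∑ i, y i ^ 2))
      = ∫ y : EuclideanSpace ℝ (Fin 4),
        (Set.Iic (Real.sinh r)).indicator (fun t => 1 / Real.sqrt (1 + t ^ 2)) ‖y‖ := by
    rw [← (PiLp.volume_preserving_toLp (Fin 4)).integral_comp
      (MeasurableEquiv.toLp 2 (Fin 4 → ℝ)).measurableEmbedding]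
    refine integral_congr_ae (Filter.Eventually.of_forall (fun y => ?_))
    simp only [EuclideanSpace.norm_eq, Real.norm_eq_abs, sq_abs]
  rw [h2, integral_fun_norm_addHaar]
  have h3 : (volume : Measure (EuclideanSpace ℝ (Fin 4))).real (Metric.ball 0 1)
      = Real.pi ^ 2 / 2 := by
    rw [measureReal_def, InnerProductSpace.volume_ball_of_dim_even (k := 2) (by simp)]
    simp
    positivity
  have h4 : Module.finrank ℝ (EuclideanSpace ℝ (Fin 4)) = 4 := by simp
  rw [h3, h4]
  have h5 : ∫ y in Set.Ioi (0:ℝ), y ^ (4 - 1) •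
      (Set.Iic (Real.sinh r)).indicator (fun t => 1 / Real.sqrt (1 + t ^ 2)) y
      = ∫ y in (0:ℝ)..Real.sinh r, y ^ 3 / Real.sqrt (1 + y ^ 2) := by
    rw [intervalIntegral.integral_of_le hs]
    rw [← integral_indicator measurableSet_Ioi, ← integral_indicator measurableSet_Ioc]
    refine integral_congr_ae (Filter.Eventually.of_forall (fun y => ?_))
    simp only [Set.indicator, Set.mem_Iic, Set.mem_Ioi, Set.mem_Ioc, smul_eq_mul]
    by_cases h6 : 0 < y
    · by_cases h7 : y ≤ Real.sinh r
      · simp [h6, h7, div_eq_mul_inv]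
      · simp [h6, h7]
    · simp [h6]
  rw [h5, integral_part, hcs]
  simp only [nsmul_eq_mul, smul_eq_mul]
  push_cast
  ring

end B4b

theorem vb_pos {r : ℝ} (hr : 0 < r) : 0 < vb r := by
  rw [vb_eq hr.le]
  have h1 : 1 < Real.cosh r := Real.one_lt_cosh.2 hr.ne'
  have h2 : 0 < Real.cosh r ^ 3 / 3 - Real.cosh r + 2 / 3 := by
    have : Real.cosh r ^ 3 / 3 - Real.cosh r + 2 / 3
      = (Real.cosh r - 1) ^ 2 * (Real.cosh r + 2) / 3 := by ring
    rw [this]
    have : 0 < Real.cosh r - 1 := by linarith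
    positivity
  positivity

namespace B4b

theorem cosh_expr (r : ℝ) : Real.cosh r ^ 3 / 3 - Real.cosh r + 2 / 3
    = (Real.exp (3 * r) - 9 * Real.exp r - 9 * (Real.exp r)⁻¹ + (Real.exp r)⁻¹ ^ 3 + 16) / 24 := by
  rw [Real.cosh_eq, Real.exp_neg, show (3 * r) = r + r + r by ring, Real.exp_add, Real.exp_add]
  have : 0 < Real.exp r := Real.exp_pos r
  set u := Real.exp r
  have hu : u * u⁻¹ = 1 := mul_inv_cancel₀ this.ne'
  field_simp
  ring

end B4b

theorem vb_le (r : ℝ) (hr : 0 ≤ r) : vb r ≤ Real.pi ^ 2 / 12 * Real.exp (3 * r) := by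
  rw [vb_eq hr, cosh_expr]
  have h1 : 1 ≤ Real.exp r := Real.one_le_exp hr
  set u := Real.exp r
  have h0 : 0 < u := by linarith
  have h2 : 0 < u⁻¹ := inv_pos.2 h0
  have h3 : u⁻¹ ≤ 1 := inv_le_one_of_one_le₀ h1
  have h4 : 2 ≤ u + u⁻¹ := by
    have : u * u⁻¹ = 1 := mul_inv_cancel₀ h0.ne'
    nlinarith [sq_nonneg (u - 1), mul_pos h0 h2]
  have h5 : u⁻¹ ^ 3 ≤ 1 := pow_le_one₀ h2.le h3
  have hpi : 0 < Real.pi ^ 2 := by positivity
  have : 2 * Real.pi ^ 2 * ((Real.exp (3 * r) - 9 * u - 9 * u⁻¹ + u⁻¹ ^ 3 + 16) / 24)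
      = Real.pi ^ 2 / 12 * Real.exp (3 * r)
        + Real.pi ^ 2 / 12 * (- 9 * (u + u⁻¹) + u⁻¹ ^ 3 + 16) := by ring
  rw [this]
  have h6 : Real.pi ^ 2 / 12 * (- 9 * (u + u⁻¹) + u⁻¹ ^ 3 + 16) ≤ 0 := by
    refine mul_nonpos_of_nonneg_of_nonpos (by positivity) (by linarith)
  linarith

theorem le_vb (r : ℝ) (hr : 1 ≤ r) : Real.exp (3 * r) / 100 ≤ vb r := by
  rw [vb_eq (by linarith), cosh_expr]
  have h1 : 2.7 ≤ Real.exp r := by
    have := Real.exp_one_gt_d9
    have h2 : Real.exp 1 ≤ Real.exp r := Real.exp_le_exp.2 hr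
    linarith
  have he : Real.exp (3 * r) = Real.exp r ^ 3 := by
    rw [← Real.exp_nat_mul]; norm_num
  rw [he]
  set u := Real.exp r
  have h0 : 0 < u := by linarith
  have h2 : 0 < u⁻¹ := inv_pos.2 h0
  have h3 : u * u⁻¹ = 1 := mul_inv_cancel₀ h0.ne'
  have hpi : 9.6 ≤ Real.pi ^ 2 := by
    have := Real.pi_gt_d2
    nlinarith
  have h5 : 0 < u⁻¹ ^ 3 := by positivity
  have h6 : u⁻¹ ≤ 0.4 := by
    rw [inv_le_comm₀ h0 (by norm_num)]
    linarith
  have h7 : u ^ 3 / 100 ≤ 0.8 * (u ^ 3 - 9 * u - 9 * u⁻¹ + u⁻¹ ^ 3 + 16) := by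
    nlinarith [mul_nonneg (sub_nonneg.2 h1) (sub_nonneg.2 h1),
      mul_nonneg (mul_nonneg (sub_nonneg.2 h1) (sub_nonneg.2 h1)) h0.le]
  have h8 : 0 ≤ u ^ 3 - 9 * u - 9 * u⁻¹ + u⁻¹ ^ 3 + 16 := by
    have : 0 < u ^ 3 := by positivity
    nlinarith
  have : 2 * Real.pi ^ 2 * ((u ^ 3 - 9 * u - 9 * u⁻¹ + u⁻¹ ^ 3 + 16) / 24)
      = Real.pi ^ 2 / 12 * (u ^ 3 - 9 * u - 9 * u⁻¹ + u⁻¹ ^ 3 + 16) := by ring
  rw [this]
  refine h7.trans ?_
  refine mul_le_mul_of_nonneg_right ?_ h8
  linarith

namespace B4b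

/-- a proper linear section of the hyperboloid is a null set -/
theorem null_section (a : Fin 4 → ℝ) (b : ℝ) (h : a ≠ 0 ∨ b ≠ 0) :
    (volume : Measure X) {y : X | ∑ i, a i * y i + b * lift y o = 0} = 0 := by
  have hcont : Continuous (fun y : X => ∑ i, a i * y i + b * lift y o) := by
    have : (fun y : X => ∑ i, a i * y i + b * lift y o)
        = fun y : X => ∑ i, a i * y i + b * Real.sqrt (1 + ∑ i, y i ^ 2) := by
      funext y; rw [lift_inr]
    rw [this]; fun_prop
  by_cases ha : a = 0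
  · have hb : b ≠ 0 := by
      rcases h with h | h
      · exact absurd ha h
      · exact h
    have : {y : X | ∑ i, a i * y i + b * lift y o = 0} = ∅ := by
      ext y
      simp only [ha, Set.mem_ofPred_eq, Pi.zero_apply, zero_mul, Finset.sum_const_zero, zero_add,
        Set.mem_empty_iff_false, iff_false]
      have := lift_o_pos y
      exact mul_ne_zero hb (by linarith)
    rw [this]; simp
  · obtain ⟨j, hj⟩ : ∃ j, a j ≠ 0 := by
      by_contra hc
      push Not at hc
      exact ha (funext hc)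
    set s : Set X := {y : X | ∑ i, a i * y i + b * lift y o = 0}ᶜ with hsdef
    have hs : MeasurableSet s :=
      ((isClosed_singleton (x := (0:ℝ))).preimage hcont).measurableSet.compl
    have key : ∀ᵐ y ∂(volume : Measure X), y ∈ s := by
      refine ae_mem_of_ae_add_linearMap_mem (𝕜 := ℝ) (LinearMap.toSpanSingleton ℝ X (Pi.single j 1))
        (volume : Measure ℝ) (volume : Measure X) hs (fun y => ?_)
      -- along a line there are at most finitely many zeros
      rw [ae_iff]
      refine Set.Finite.measure_zero ?_ _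
      -- the polynomial
      set c := ∑ i, a i * y i with hc
      set Q := 1 + ∑ i, y i ^ 2 with hQ
      have hQ1 : 1 + y j ^ 2 ≤ Q := by
        have : y j ^ 2 ≤ ∑ i, y i ^ 2 :=
          Finset.single_le_sum (f := fun i => y i ^ 2) (fun i _ => sq_nonneg _) (Finset.mem_univ j)
        linarith
      let P : Polynomial ℝ := (Polynomial.C (a j) * Polynomial.X + Polynomial.C c) ^ 2
        - Polynomial.C (b ^ 2) * (Polynomial.X ^ 2 + Polynomial.C (2 * y j) * Polynomial.X
          + Polynomial.C Q)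
      have hP : P ≠ 0 := by
        intro h0
        have hev : ∀ t : ℝ, (a j * t + c) ^ 2 - b ^ 2 * (t ^ 2 + 2 * y j * t + Q) = 0 := by
          intro t
          have := congrArg (Polynomial.eval t) h0
          simpa [P] using this
        -- the quadratic form (t+y_j)^2 + (Q - y_j^2) is positive, so b = 0 at the zero of the square
        have h1 := hev (-c / a j)
        have e1 : a j * (-c / a j) + c = 0 := by field_simp; ring
        rw [e1] at h1
        have h2 : 0 < (-c / a j) ^ 2 + 2 * y j * (-c / a j) + Q := by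
          nlinarith [sq_nonneg (-c / a j + y j)]
        have hb : b = 0 := by
          have : b ^ 2 * ((-c / a j) ^ 2 + 2 * y j * (-c / a j) + Q) = 0 := by nlinarith
          rcases mul_eq_zero.1 this with h3 | h3
          · exact pow_eq_zero_iff (two_ne_zero) |>.1 h3
          · exact absurd h3 h2.ne'
        have h4 := hev ((1 - c) / a j)
        have e2 : a j * ((1 - c) / a j) + c = 1 := by field_simp; ring
        rw [e2, hb] at h4
        norm_num at h4
      refine (P.roots.toFinset.finite_toSet).subset ?_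
      intro t ht
      simp only [hsdef, Set.mem_compl_iff, not_not, Set.mem_ofPred_eq] at ht
      simp only [Finset.mem_coe, Multiset.mem_toFinset]
      rw [Polynomial.mem_roots hP, Polynomial.IsRoot.def]
      have e1 : ∑ i, a i * (y + LinearMap.toSpanSingleton ℝ X (Pi.single j 1) t) i
          = a j * t + c := by
        simp only [LinearMap.toSpanSingleton_apply, Pi.add_apply, Pi.smul_apply, smul_eq_mul,
          mul_add, Finset.sum_add_distrib]
        rw [← hc, add_comm]
        congr 1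
        rw [Finset.sum_eq_single j]
        · simp
        · intro i _ hi; simp [hi]
        · simp
      have e2 : lift (y + LinearMap.toSpanSingleton ℝ X (Pi.single j 1) t) o ^ 2
          = t ^ 2 + 2 * y j * t + Q := by
        rw [lift_o_sq, hQ]
        simp only [LinearMap.toSpanSingleton_apply, Pi.add_apply, Pi.smul_apply, smul_eq_mul]
        have : ∀ i, (y i + t * (Pi.single j (1:ℝ) : X) i) ^ 2
            = y i ^ 2 + (2 * y i * t + t ^ 2) * (Pi.single j (1:ℝ) : X) i := by
          intro i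
          by_cases hi : i = j
          · subst hi; simp; ring
          · simp [hi]
        simp only [this, Finset.sum_add_distrib]
        rw [Finset.sum_eq_single j (f := fun i => (2 * y i * t + t ^ 2) * (Pi.single j (1:ℝ) : X) i)]
        · simp; ring
        · intro i _ hi; simp [hi]
        · simp
      simp only [P, Polynomial.eval_sub, Polynomial.eval_pow, Polynomial.eval_add,
        Polynomial.eval_mul, Polynomial.eval_C, Polynomial.eval_X]
      rw [← e2]
      rw [e1] at ht
      have : a j * t + c = - (b * lift (y + LinearMap.toSpanSingleton ℝ X (Pi.single j 1) t) o) := by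
        linarith
      rw [this]; ring
    rw [ae_iff] at key
    simpa [hsdef] using key

end B4b

namespace B4b

theorem μ_ball_ne_top (r : ℝ) : μ {y | hd 0 y ≤ r} ≠ ⊤ := by
  by_cases hr : 0 ≤ r
  · have h1 : IsCompact {y : X | Real.sqrt (∑ i, y i ^ 2) ≤ Real.sinh r} := by
      refine Metric.isCompact_of_isClosed_isBounded ?_ ?_
      · have : Continuous (fun y : X => Real.sqrt (∑ i, y i ^ 2)) := by fun_prop
        exact isClosed_le this continuous_const
      · refine (Metric.isBounded_closedBall (x := (0 : X)) (r := Real.sinh r)).subset ?_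
        intro y hy
        have hy' : Real.sqrt (∑ i, y i ^ 2) ≤ Real.sinh r := hy
        rw [mem_closedBall_zero_iff]
        refine (pi_norm_le_iff_of_nonneg (Real.sinh_nonneg_iff.2 hr)).2 (fun i => ?_)
        refine le_trans ?_ hy'
        rw [Real.norm_eq_abs, ← Real.sqrt_sq_eq_abs]
        exact Real.sqrt_le_sqrt (Finset.single_le_sum (f := fun i => y i ^ 2)
          (fun i _ => sq_nonneg _) (Finset.mem_univ i))
    rw [hball_zero hr]
    exact (lt_of_le_of_lt (μ_le _) h1.measure_lt_top).ne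
  · have : {y : X | hd 0 y ≤ r} = ∅ := by
      ext y
      simp only [Set.mem_ofPred_eq, Set.mem_empty_iff_false, iff_false, not_le]
      exact lt_of_lt_of_le (not_le.1 hr) (hd_nonneg _ _)
    rw [this]; simp

theorem measurableSet_hball0 (r : ℝ) : MeasurableSet {y : X | hd 0 y ≤ r} := by
  by_cases hr : 0 ≤ r
  · rw [hball_zero hr]; exact measurableSet_ball0 _
  · have : {y : X | hd 0 y ≤ r} = ∅ := by
      ext y
      simp only [Set.mem_ofPred_eq, Set.mem_empty_iff_false, iff_false, not_le]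
      exact lt_of_lt_of_le (not_le.1 hr) (hd_nonneg _ _)
    rw [this]; exact MeasurableSet.empty

/-- `μ_hball` from transitivity and invariance -/
theorem μ_hball_of (hb : ∀ y : X, ∃ g : GLI, InG g ∧ act g 0 = y)
    (hm : ∀ g : GLI, InG g → MeasurePreserving (act g) μ μ)
    (x : X) (r : ℝ) : μ {y | hd x y ≤ r} = ENNReal.ofReal (vb r) := by
  obtain ⟨g, hg, hgx⟩ := hb x
  have h1 : {y : X | hd x y ≤ r} = act g⁻¹ ⁻¹' {y : X | hd 0 y ≤ r} := by
    ext y
    simp only [Set.mem_ofPred_eq, Set.mem_preimage]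
    have : hd x y = hd 0 (act g⁻¹ y) := by
      conv_lhs => rw [← hgx, ← act_act_inv hg y, hd_act hg]
    rw [this]
  rw [h1, (hm _ hg.inv).measure_preimage (measurableSet_hball0 r).nullMeasurableSet, vb,
    ENNReal.ofReal_toReal (μ_ball_ne_top r)]

end B4b

/-- fixed point sets are null -/
theorem μ_fix {γ : GLI} (hγ : InG γ) (h1 : γ ≠ 1) : μ {y | act γ y = y} = 0 := by
  rw [μ_null_iff]
  have h2 : γ.val - 1 ≠ 0 := by
    intro h
    apply h1
    ext i j
    have := congrFun (congrFun (sub_eq_zero.1 h) i) j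
    exact this
  obtain ⟨i, hi⟩ : ∃ i, (γ.val - 1) i ≠ 0 := by
    by_contra hc
    push Not at hc
    exact h2 (funext hc)
  have h3 : (fun k : Fin 4 => (γ.val - 1) i (Sum.inl k)) ≠ 0 ∨ (γ.val - 1) i o ≠ 0 := by
    by_contra hc
    push Not at hc
    apply hi
    ext j
    rcases j with j | j
    · exact congrFun hc.1 j
    · exact hc.2
  refine measure_mono_null ?_ (null_section _ _ h3)
  intro y hy
  have hy' : act γ y = y := hy
  have e : (γ.val - 1) *ᵥ lift y = 0 := by
    rw [Matrix.sub_mulVec, Matrix.one_mulVec, ← lift_act hγ, hy', sub_self]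
  have e2 := congrFun e i
  rw [Matrix.mulVec, dotProduct, Fintype.sum_sum_type] at e2
  simp only [Finset.univ_unique, Finset.sum_singleton, Pi.zero_apply] at e2
  exact e2

end Pool.Agent.helper21.WB
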