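import Pool.Agent.helper88.WB.MDefs
import Pool.Agent.helper19.WB.B1a

/-! Module WB-MB2: Gromov products and four point sums are coarsely preserved. -/

set_option autoImplicit false
open Matrix MeasureTheory Filter Topology

namespace Pool.Agent.helper88.WB
open Pool.Agent.helper21.WB

namespace MB2

/-- the four point inequality -/
def FP : Prop := ∀ x y z w : X, hd x y + hd z w ≤ max (hd x z + hd y w) (hd x w + hd y z) + 7

/-- geodesic lines -/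
def EL : Prop := ∀ x y : X, ∃ c : ℝ → X, c 0 = x ∧ c (hd x y) = y ∧ ∀ s t, hd (c s) (c t) = |s - t|

/-- a point of the segment at a given distance -/
theorem exists_pt (hl : EL) (x y : X) {t : ℝ} (h0 : 0 ≤ t) (h1 : t ≤ hd x y) :
    ∃ p : X, hd x p = t ∧ hd p y = hd x y - t := by
  obtain ⟨c, hc0, hc1, hc⟩ := hl x y
  refine ⟨c t, ?_, ?_⟩
  · have := hc 0 t
    rw [hc0] at this
    rw [this, zero_sub, abs_neg, abs_of_nonneg h0]
  · have := hc t (hd x y)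
    rw [hc1] at this
    rw [this, abs_sub_comm, abs_of_nonneg (by linarith)]

/-- two sides of a triangle are close up to the Gromov product -/
theorem near_side (h4 : FP) (w x y p : X) {t : ℝ} (hp1 : hd w p = t)
    (hp2 : hd p x = hd w x - t) :
    hd p y ≤ max (t + hd x y) (hd w x - t + hd w y) - hd w x + 7 := by
  have h := h4 p y w x
  rw [hd_comm p w, hp1, hd_comm y x, hp2, hd_comm y w] at h
  linarith

theorem part3 (h4 : FP) (hl : EL) {c C : ℝ} {F : X → X}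
    (h1 : ∀ x y, c * hd x y - C ≤ hd (F x) (F y)) (h2 : ∀ x y, hd (F x) (F y) ≤ 2 * hd x y + C)
    (h3 : ∀ x y z, hd x z + hd z y = hd x y → gp (F x) (F y) (F z) ≤ C) (x y w : X) :
    c * gp x y w - (4 * C + 28) ≤ gp (F x) (F y) (F w) := by
  set t := gp x y w with ht
  have e : t = (hd x w + hd y w - hd x y) / 2 := rfl
  have t1 := hd_triangle x w y
  have t2 := hd_triangle x y w
  have t3 := hd_triangle y x w
  rw [hd_comm w y] at t1
  rw [hd_comm y x] at t3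
  have ht0 : 0 ≤ t := by rw [e]; linarith
  have htx : t ≤ hd w x := by rw [e, hd_comm w x]; linarith
  have hty : t ≤ hd w y := by rw [e, hd_comm w y]; linarith
  obtain ⟨p, hp1, hp2⟩ := exists_pt hl w x ht0 htx
  obtain ⟨q, hq1, hq2⟩ := exists_pt hl w y ht0 hty
  have n1 : hd p y ≤ hd w y - t + 7 := by
    have := near_side h4 w x y p hp1 hp2
    have e2 : t + hd x y = hd w x - t + hd w y := by rw [e, hd_comm w x, hd_comm w y]; ring
    rw [e2, max_self] at this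
    linarith
  have n2 : hd p q ≤ 14 := by
    have h := h4 p q w y
    rw [hd_comm p w, hp1, hq2, hd_comm q w, hq1] at h
    have : max (t + (hd w y - t)) (hd p y + t) ≤ hd w y + 7 := by
      refine max_le (by linarith) (by linarith)
    linarith
  have g1 := h3 w x p (by rw [hp1, hp2]; ring)
  have g2 := h3 w y q (by rw [hq1, hq2]; ring)
  have u1 := h2 p q
  have u2 := h1 w p
  rw [hp1] at u2
  have v1 := hd_triangle (F w) (F p) (F q)
  have v2 := hd_triangle (F y) (F q) (F p)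
  have v3 := hd_triangle (F x) (F p) (F y)
  have v4 := hd_triangle (F p) (F q) (F y)
  have v5 := hd_triangle (F w) (F q) (F p)
  have v6 := hd_triangle (F y) (F p) (F q)
  unfold gp at g1 g2 ⊢
  simp only [hd_comm (F q) (F p), hd_comm (F x) (F w), hd_comm (F y) (F w), hd_comm (F p) (F w),
    hd_comm (F q) (F w), hd_comm (F x) (F p), hd_comm (F y) (F p), hd_comm (F y) (F q)] at *
  linarith

theorem part4 (h4 : FP) (hl : EL) {C : ℝ} {F : X → X}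
    (h2 : ∀ x y, hd (F x) (F y) ≤ 2 * hd x y + C)
    (h3 : ∀ x y z, hd x z + hd z y = hd x y → gp (F x) (F y) (F z) ≤ C)
    (x₁ x₂ x₃ x₄ : X) (b : ℝ) (hb : 0 ≤ b)
    (h : hd x₁ x₂ + hd x₃ x₄ ≤ hd x₁ x₃ + hd x₂ x₄ + b) :
    hd (F x₁) (F x₂) + hd (F x₃) (F x₄) ≤ hd (F x₁) (F x₃) + hd (F x₂) (F x₄)
      + (6 * C + 112 + 4 * b) := by
  -- the point z on [x₁, x₃]
  obtain ⟨z, hz1, hz2⟩ : ∃ z : X, hd x₁ z + hd z x₃ = hd x₁ x₃ ∧
      hd x₂ z + hd x₄ z ≤ hd x₂ x₄ + 21 + b := by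
    set t₂ := (hd x₁ x₂ + hd x₁ x₃ - hd x₂ x₃) / 2 with ht₂
    set t₄ := (hd x₁ x₄ + hd x₁ x₃ - hd x₃ x₄) / 2 with ht₄
    have a1 := hd_triangle x₂ x₁ x₃
    have a2 := hd_triangle x₁ x₂ x₃
    have a3 := hd_triangle x₁ x₃ x₂
    have b1 := hd_triangle x₄ x₁ x₃
    have b2 := hd_triangle x₁ x₄ x₃
    have b3 := hd_triangle x₁ x₃ x₄
    rw [hd_comm x₂ x₁] at a1
    rw [hd_comm x₃ x₂] at a3
    rw [hd_comm x₄ x₁, hd_comm x₄ x₃] at b1
    rw [hd_comm x₄ x₃] at b2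
    have c1 : 0 ≤ t₂ := by rw [ht₂]; linarith
    have c2 : t₂ ≤ hd x₁ x₃ := by rw [ht₂]; linarith
    have c3 : 0 ≤ t₄ := by rw [ht₄]; linarith
    have c4 : t₄ ≤ hd x₁ x₃ := by rw [ht₄]; linarith
    rcases le_total t₄ t₂ with hle | hle
    · obtain ⟨z, hz1, hz2⟩ := exists_pt hl x₁ x₃ c1 c2
      refine ⟨z, by rw [hz1, hz2]; ring, ?_⟩
      have d2 := near_side h4 x₁ x₃ x₂ z hz1 hz2
      have d4 := near_side h4 x₁ x₃ x₄ z hz1 hz2
      have e2 : t₂ + hd x₃ x₂ = hd x₁ x₃ - t₂ + hd x₁ x₂ := by rw [ht₂, hd_comm x₃ x₂]; ring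
      rw [e2, max_self] at d2
      have e4 : max (t₂ + hd x₃ x₄) (hd x₁ x₃ - t₂ + hd x₁ x₄) = t₂ + hd x₃ x₄ := by
        refine max_eq_left ?_
        rw [ht₄] at hle
        linarith
      rw [e4] at d4
      rw [hd_comm x₂ z, hd_comm x₄ z]
      linarith
    · obtain ⟨z, hz1, hz2⟩ := exists_pt hl x₁ x₃ c3 c4
      refine ⟨z, by rw [hz1, hz2]; ring, ?_⟩
      have d2 := near_side h4 x₁ x₃ x₂ z hz1 hz2
      have d4 := near_side h4 x₁ x₃ x₄ z hz1 hz2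
      have e4 : t₄ + hd x₃ x₄ = hd x₁ x₃ - t₄ + hd x₁ x₄ := by rw [ht₄]; ring
      rw [e4, max_self] at d4
      have e2 : max (t₄ + hd x₃ x₂) (hd x₁ x₃ - t₄ + hd x₁ x₂) = t₄ + hd x₃ x₂ := by
        refine max_eq_left ?_
        rw [ht₂] at hle
        rw [hd_comm x₃ x₂]
        linarith
      rw [e2] at d2
      have h5 := h4 x₁ x₄ x₂ x₃
      rw [hd_comm x₄ x₃, hd_comm x₄ x₂] at h5
      have h6 : max (hd x₁ x₂ + hd x₃ x₄) (hd x₁ x₃ + hd x₂ x₄) ≤ hd x₁ x₃ + hd x₂ x₄ + b :=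
        max_le h (by linarith)
      rw [hd_comm x₂ z, hd_comm x₄ z]
      rw [hd_comm x₃ x₂] at d2
      linarith
  -- the point q on [x₂, x₄]
  obtain ⟨q, hq1, hq2⟩ : ∃ q : X, hd x₂ q + hd q x₄ = hd x₂ x₄ ∧ hd q z ≤ 28 + b := by
    rcases le_total (hd x₂ z) (hd x₂ x₄) with hle | hle
    · obtain ⟨q, hq1, hq2⟩ := exists_pt hl x₂ x₄ (hd_nonneg _ _) hle
      refine ⟨q, by rw [hq1, hq2]; ring, ?_⟩
      have h5 := h4 q z x₂ x₄
      rw [hd_comm q x₂, hq1, hd_comm z x₄, hq2, hd_comm z x₂] at h5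
      have : max (hd x₂ z + hd x₄ z) (hd x₂ x₄ - hd x₂ z + hd x₂ z) ≤ hd x₂ x₄ + 21 + b :=
        max_le hz2 (by linarith)
      linarith
    · refine ⟨x₄, by rw [hd_self, add_zero], ?_⟩
      linarith
  have g1 := h3 x₁ x₃ z hz1
  have g2 := h3 x₂ x₄ q hq1
  have u1 := h2 q z
  have v1 := hd_triangle (F x₂) (F q) (F z)
  have v2 := hd_triangle (F z) (F q) (F x₄)
  have v3 := hd_triangle (F x₁) (F z) (F x₂)
  have v4 := hd_triangle (F x₃) (F z) (F x₄)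
  unfold gp at g1 g2
  simp only [hd_comm (F z) (F q), hd_comm (F z) (F x₂), hd_comm (F z) (F x₄), hd_comm (F x₃) (F z),
    hd_comm (F q) (F x₄)] at *
  linarith

end MB2

open MB2 in
/-- [MB2] from its inputs -/
theorem MB2.coarse₂_of (h4 : FP) (hl : EL)
    (hc : ∀ a : ℝ, ∃ D c C : ℝ, 0 < c ∧ c ≤ 1 ∧ 0 ≤ C ∧ ∀ F : X → X, NI D a F →
    (∀ x y, c * hd x y - C ≤ hd (F x) (F y)) ∧ (∀ x y, hd (F x) (F y) ≤ 2 * hd x y + C) ∧
    (∀ x y z, hd x z + hd z y = hd x y → gp (F x) (F y) (F z) ≤ C)) (a : ℝ) :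
    ∃ D c C : ℝ, 0 < c ∧ c ≤ 1 ∧ 0 ≤ C ∧ ∀ F : X → X, NI D a F →
    (∀ x y, c * hd x y - C ≤ hd (F x) (F y)) ∧ (∀ x y, hd (F x) (F y) ≤ 2 * hd x y + C) ∧
    (∀ x y w, c * gp x y w - C ≤ gp (F x) (F y) (F w)) ∧
    (∀ x₁ x₂ x₃ x₄ : X, ∀ b : ℝ, 0 ≤ b → hd x₁ x₂ + hd x₃ x₄ ≤ hd x₁ x₃ + hd x₂ x₄ + b →
      hd (F x₁) (F x₂) + hd (F x₃) (F x₄) ≤ hd (F x₁) (F x₃) + hd (F x₂) (F x₄) + C * (1 + b)) := by
  obtain ⟨D, c, C, hc0, hc1, hC, h⟩ := hc a
  refine ⟨D, c, 6 * C + 112, hc0, hc1, by positivity, fun F hF => ?_⟩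
  obtain ⟨h1, h2, h3⟩ := h F hF
  refine ⟨fun x y => ?_, fun x y => ?_, fun x y w => ?_, fun x₁ x₂ x₃ x₄ b hb h5 => ?_⟩
  · have := h1 x y; linarith
  · have := h2 x y; linarith
  · have := part3 h4 hl h1 h2 h3 x y w; linarith
  · have := part4 h4 hl h2 h3 x₁ x₂ x₃ x₄ b hb h5
    have : 6 * C + 112 + 4 * b ≤ (6 * C + 112) * (1 + b) := by nlinarith [mul_nonneg hC hb]
    linarith

end Pool.Agent.helper88.WB
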