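import Pool.Agent.helper2.WB.MB2
import Pool.Agent.helper36.WB.MB1
import Pool.Agent.helper88.WB.MBase

/-! helper2: module [MB2] of part M (helper88) of the project of helper21 on MP_7b8095_gt. -/

set_option autoImplicit false

namespace Pool.Agent.helper88.WB
open Pool.Agent.helper21.WB

/-- [MB2] -/
theorem coarse₂ (a : ℝ) : ∃ D c C : ℝ, 0 < c ∧ c ≤ 1 ∧ 0 ≤ C ∧ ∀ F : X → X, NI D a F →
    (∀ x y, c * hd x y - C ≤ hd (F x) (F y)) ∧ (∀ x y, hd (F x) (F y) ≤ 2 * hd x y + C) ∧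
    (∀ x y w, c * gp x y w - C ≤ gp (F x) (F y) (F w)) ∧
    (∀ x₁ x₂ x₃ x₄ : X, ∀ b : ℝ, 0 ≤ b → hd x₁ x₂ + hd x₃ x₄ ≤ hd x₁ x₃ + hd x₂ x₄ + b →
      hd (F x₁) (F x₂) + hd (F x₃) (F x₄) ≤ hd (F x₁) (F x₃) + hd (F x₂) (F x₄) + C * (1 + b)) :=
  MB2.coarse₂_of four_point exists_line coarse₁ a

end Pool.Agent.helper88.WB
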