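import Pool.Agent.helper88.WB.MDefs

/-! Module WB-MD2: Stepanov's theorem in `ℝ³` from Rademacher's theorem and density points. -/

set_option autoImplicit false
open Matrix MeasureTheory Filter Topology

namespace Pool.Agent.helper88.WB
open Pool.Agent.helper21.WB

namespace MD2

/-- near a density point of `S` every point has a relatively close point of `S` -/
theorem near_of_density {S : Set E} {x : E}
    (h : Tendsto (fun r => (volume : Measure E) (S ∩ Metric.closedBall x r)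
      / (volume : Measure E) (Metric.closedBall x r)) (𝓝[>] 0) (𝓝 1)) {ε : ℝ} (hε : 0 < ε)
    (hε1 : ε ≤ 1) : ∀ᶠ y in 𝓝 x, ∃ z ∈ S, ‖y - z‖ ≤ ε * ‖y - x‖ ∨ y = x := by
  by_cases hS : S.Nonempty
  swap
  · rw [Set.not_nonempty_iff_eq_empty] at hS
    subst hS
    simp only [Set.empty_inter, measure_empty, ENNReal.zero_div] at h
    exact absurd (tendsto_nhds_unique h tendsto_const_nhds) one_ne_zero
  set q : ENNReal := 1 - ENNReal.ofReal ((ε / 2) ^ 3) with hq
  have hpos : 0 < (ε / 2) ^ 3 := by positivity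
  have hq1 : q < 1 := by
    rw [hq]
    exact ENNReal.sub_lt_self ENNReal.one_ne_top one_ne_zero (ENNReal.ofReal_pos.2 hpos).ne'
  have h1 : ∀ᶠ r in 𝓝[>] (0:ℝ), q < (volume : Measure E) (S ∩ Metric.closedBall x r)
      / (volume : Measure E) (Metric.closedBall x r) := h.eventually (lt_mem_nhds hq1)
  rw [eventually_nhdsWithin_iff] at h1
  obtain ⟨δ, hδ, h2⟩ := Metric.eventually_nhds_iff.1 h1
  refine Metric.eventually_nhds_iff.2 ⟨δ / 2, by positivity, fun y hy => ?_⟩
  by_cases hyx : y = x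
  · obtain ⟨z, hz⟩ := hS
    exact ⟨z, hz, Or.inr hyx⟩
  by_contra hc
  push Not at hc
  set ρ := ‖y - x‖ with hρ
  have hρ0 : 0 < ρ := norm_pos_iff.2 (sub_ne_zero.2 hyx)
  have hρδ : ρ < δ / 2 := by rw [hρ, ← dist_eq_norm]; exact hy
  have h3 := h2 (y := 2 * ρ) (by rw [Real.dist_eq, sub_zero, abs_of_pos (by positivity)]; linarith)
    (by show (0:ℝ) < 2 * ρ; positivity)
  -- the ball around `y` misses `S`
  have hsub : Metric.closedBall y (ε * ρ) ⊆ Metric.closedBall x (2 * ρ) := by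
    refine Metric.closedBall_subset_closedBall' ?_
    rw [dist_eq_norm, ← hρ]
    nlinarith
  have hdisj : S ∩ Metric.closedBall x (2 * ρ)
      ⊆ Metric.closedBall x (2 * ρ) \ Metric.closedBall y (ε * ρ) := by
    rintro z ⟨hz, hz2⟩
    refine ⟨hz2, fun hz3 => ?_⟩
    have := (hc z hz).1
    rw [Metric.mem_closedBall, dist_comm, dist_eq_norm] at hz3
    linarith
  have hvol : ∀ (w : E) (r : ℝ), 0 ≤ r → (volume : Measure E) (Metric.closedBall w r)
      = ENNReal.ofReal (r ^ 3) * (volume : Measure E) (Metric.ball (0 : E) 1) := by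
    intro w r hr
    rw [Measure.addHaar_closedBall _ _ hr]
    simp
  have hfin : (volume : Measure E) (Metric.closedBall x (2 * ρ)) ≠ ⊤ := measure_closedBall_lt_top.ne
  have h0 : (volume : Measure E) (Metric.closedBall x (2 * ρ)) ≠ 0 :=
    (Metric.measure_closedBall_pos _ _ (by positivity)).ne'
  have h4 : (volume : Measure E) (S ∩ Metric.closedBall x (2 * ρ))
      ≤ (volume : Measure E) (Metric.closedBall x (2 * ρ))
        - (volume : Measure E) (Metric.closedBall y (ε * ρ)) := by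
    refine (measure_mono hdisj).trans (le_of_eq ?_)
    exact measure_diff hsub Metric.isClosed_closedBall.measurableSet.nullMeasurableSet
      measure_closedBall_lt_top.ne
  have h5 : (volume : Measure E) (Metric.closedBall y (ε * ρ))
      = ENNReal.ofReal ((ε / 2) ^ 3) * (volume : Measure E) (Metric.closedBall x (2 * ρ)) := by
    rw [hvol _ _ (by positivity), hvol _ _ (by positivity), ← mul_assoc,
      ← ENNReal.ofReal_mul (by positivity)]
    congr 2
    ring
  rw [h5] at h4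
  have h6 : (volume : Measure E) (S ∩ Metric.closedBall x (2 * ρ))
      / (volume : Measure E) (Metric.closedBall x (2 * ρ)) ≤ q := by
    rw [ENNReal.div_le_iff h0 hfin, hq, ENNReal.sub_mul (fun _ _ => hfin), one_mul]
    exact h4
  exact absurd h3 (not_lt.2 h6)

theorem core {f g : E → E} {S : Set E} {x : E} {K : NNReal} {N r : ℝ} (hr : 0 < r) (hN : 0 ≤ N)
    (hS : ∀ z ∈ S, ∀ y ∈ Metric.ball z r, ‖f y - f z‖ ≤ N * ‖y - z‖)
    (hg : LipschitzWith K g) (hfg : Set.EqOn f g S) (hx : x ∈ S)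
    (hd : Tendsto (fun r => (volume : Measure E) (S ∩ Metric.closedBall x r)
      / (volume : Measure E) (Metric.closedBall x r)) (𝓝[>] 0) (𝓝 1))
    (hgd : DifferentiableAt ℝ g x) : DifferentiableAt ℝ f x := by
  obtain ⟨L, hL⟩ := hgd
  refine ⟨L, ?_⟩
  rw [hasFDerivAt_iff_isLittleO, Asymptotics.isLittleO_iff] at hL ⊢
  intro c hc
  set M : ℝ := N + K + 1 with hM
  have hMp : 0 < M := by positivity
  set ε : ℝ := min 1 (c / (2 * M)) with hε
  have hεp : 0 < ε := by rw [hε]; positivity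
  have hε1 : ε ≤ 1 := min_le_left _ _
  have hε2 : ε * M ≤ c / 2 := by
    have : ε ≤ c / (2 * M) := min_le_right _ _
    calc ε * M ≤ c / (2 * M) * M := mul_le_mul_of_nonneg_right this hMp.le
      _ = c / 2 := by field_simp
  filter_upwards [hL (show 0 < c / 2 by positivity), near_of_density hd hεp hε1,
    Metric.ball_mem_nhds x hr] with y h1 h2 h3
  obtain ⟨z, hz, h4⟩ := h2
  rcases h4 with h4 | rfl
  swap
  · simp
  have hyz : ‖y - z‖ < r := by
    refine lt_of_le_of_lt h4 ?_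
    rw [Metric.mem_ball, dist_eq_norm] at h3
    nlinarith [norm_nonneg (y - x)]
  have h5 : ‖f y - f z‖ ≤ N * ‖y - z‖ :=
    hS z hz y (by rw [Metric.mem_ball, dist_eq_norm]; exact hyz)
  have h6 : ‖g z - g y‖ ≤ K * ‖y - z‖ := by
    rw [← dist_eq_norm, ← dist_eq_norm, dist_comm y z]
    exact hg.dist_le_mul z y
  have e : f y - f x - L (y - x) = (f y - f z) + (g z - g y) + (g y - g x - L (y - x)) := by
    rw [hfg hx, hfg hz]; abel
  rw [e]
  calc ‖(f y - f z) + (g z - g y) + (g y - g x - L (y - x))‖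
      ≤ ‖f y - f z‖ + ‖g z - g y‖ + ‖g y - g x - L (y - x)‖ := norm_add₃_le
    _ ≤ N * ‖y - z‖ + K * ‖y - z‖ + c / 2 * ‖y - x‖ := by gcongr
    _ ≤ M * (ε * ‖y - x‖) + c / 2 * ‖y - x‖ := by
        have : N * ‖y - z‖ + K * ‖y - z‖ ≤ M * ‖y - z‖ := by
          rw [hM]; nlinarith [norm_nonneg (y - z)]
        have := mul_le_mul_of_nonneg_left h4 hMp.le
        linarith
    _ ≤ c * ‖y - x‖ := by
        have := mul_le_mul_of_nonneg_right hε2 (norm_nonneg (y - x))
        nlinarith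

theorem ae_on (f : E → E) {S : Set E} {N r : ℝ} (hr : 0 < r) (hN : 0 ≤ N)
    (hS : ∀ z ∈ S, ∀ y ∈ Metric.ball z r, ‖f y - f z‖ ≤ N * ‖y - z‖)
    (hdiam : ∀ z ∈ S, ∀ y ∈ S, dist y z < r) : ∀ᵐ x : E, x ∈ S → DifferentiableAt ℝ f x := by
  have hLip : LipschitzOnWith (Real.toNNReal N) f S := by
    refine LipschitzOnWith.of_dist_le_mul (fun y hy z hz => ?_)
    rw [dist_eq_norm, dist_eq_norm, Real.coe_toNNReal _ hN]
    exact hS z hz y (hdiam z hz y hy)
  obtain ⟨g, hg, hfg⟩ := hLip.extend_finite_dimension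
  have h1 : ∀ᵐ x : E, DifferentiableAt ℝ g x := hg.ae_differentiableAt
  have h2 := ae_imp_of_ae_restrict (Besicovitch.ae_tendsto_measure_inter_div (volume : Measure E) S)
  filter_upwards [h1, h2] with x hx1 hx2 hxS
  exact core hr hN hS hg hfg hxS (hx2 hxS) hx1

end MD2

/-- [MD2] Stepanov -/
theorem stepanov (f : E → E) : ∀ᵐ x : E,
    (∃ C r : ℝ, 0 < r ∧ ∀ y ∈ Metric.ball x r, ‖f y - f x‖ ≤ C * ‖y - x‖) →
      DifferentiableAt ℝ f x := by
  let A : ℕ → Set E := fun n => {x | ∀ y ∈ Metric.ball x (1 / ((n:ℝ) + 1)),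
    ‖f y - f x‖ ≤ ((n:ℝ) + 1) * ‖y - x‖}
  obtain ⟨Q, hQc, hQd⟩ := TopologicalSpace.exists_countable_dense E
  have hnp : ∀ n : ℕ, 0 < 1 / ((n:ℝ) + 1) := fun n => by positivity
  have key : ∀ n : ℕ, ∀ c ∈ Q, ∀ᵐ x : E,
      x ∈ A n ∩ Metric.ball c (1 / ((n:ℝ) + 1) / 2) → DifferentiableAt ℝ f x := by
    intro n c _
    refine MD2.ae_on f (hnp n) (by positivity : (0:ℝ) ≤ (n:ℝ) + 1) ?_ ?_
    · intro z hz y hy
      exact hz.1 y hy
    · intro z hz y hy
      have h1 := Metric.mem_ball.1 hz.2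
      have h2 := Metric.mem_ball.1 hy.2
      calc dist y z ≤ dist y c + dist z c := dist_triangle_right _ _ _
        _ < 1 / ((n:ℝ) + 1) / 2 + 1 / ((n:ℝ) + 1) / 2 := add_lt_add h2 h1
        _ = 1 / ((n:ℝ) + 1) := by ring
  have key2 : ∀ᵐ x : E, ∀ n : ℕ, ∀ c ∈ Q,
      x ∈ A n ∩ Metric.ball c (1 / ((n:ℝ) + 1) / 2) → DifferentiableAt ℝ f x := by
    rw [ae_all_iff]
    intro n
    exact (ae_ball_iff hQc).2 (fun c hc => key n c hc)
  filter_upwards [key2] with x hx
  rintro ⟨C, r, hr, h⟩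
  obtain ⟨n₁, hn₁⟩ := exists_nat_ge C
  obtain ⟨n₂, hn₂⟩ := exists_nat_one_div_lt hr
  set n := max n₁ n₂ with hn
  have h1 : C ≤ (n:ℝ) + 1 := by
    have : (n₁:ℝ) ≤ n := by exact_mod_cast le_max_left _ _
    linarith
  have h2 : 1 / ((n:ℝ) + 1) ≤ r := by
    have h3 : (n₂:ℝ) ≤ n := by exact_mod_cast le_max_right _ _
    have h4 : 1 / ((n:ℝ) + 1) ≤ 1 / ((n₂:ℝ) + 1) :=
      one_div_le_one_div_of_le (by positivity) (by linarith)
    linarith
  have hxA : x ∈ A n := by
    intro y hy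
    have h3 := h y (Metric.ball_subset_ball h2 hy)
    refine h3.trans (mul_le_mul_of_nonneg_right h1 (norm_nonneg _))
  obtain ⟨c, hcQ, hc⟩ := Metric.dense_iff.1 hQd x (1 / ((n:ℝ) + 1) / 2) (half_pos (hnp n))
  exact hx n c hc ⟨hxA, by rw [Metric.mem_ball, dist_comm]; exact Metric.mem_ball.1 hcQ⟩

end Pool.Agent.helper88.WB
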